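import Mathlib

/-!
MP_c229cb_an, Q1 and Q2: disproof.

For every `n ≥ 3` the real linear subspace `K = ℂ × ℝ^(n-1)` of `ℂ^n` and the algebraic variety
`V = {z₀ z₂ = 1, z₁ = i z₂}` satisfy: `V` stays polynomially away from `K` with exponent `1`, but every
algebraic hypersurface containing `V` meets `K`.
-/

namespace Pool.Agent.Results.MP_c229cb_an.RealSubspace

open MvPolynomial

/-- A closed cone in `ℂ^n`: a closed set stable under multiplication by every real `t > 0`. -/
def IsClosedCone {n : ℕ} (K : Set (EuclideanSpace ℂ (Fin n))) : Prop :=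
  IsClosed K ∧ ∀ t : ℝ, 0 < t → ∀ z ∈ K, (t : ℂ) • z ∈ K

/-- The common zero set in `ℂ^n` of a set of polynomials. -/
def zeroLocus {n : ℕ} (F : Set (MvPolynomial (Fin n) ℂ)) : Set (EuclideanSpace ℂ (Fin n)) :=
  {z | ∀ P ∈ F, MvPolynomial.eval (fun i => z i) P = 0}

/-- An algebraic variety: the common zero set of finitely many polynomials. -/
def IsVariety {n : ℕ} (V : Set (EuclideanSpace ℂ (Fin n))) : Prop :=
  ∃ F : Set (MvPolynomial (Fin n) ℂ), F.Finite ∧ V = zeroLocus F

/-- An algebraic hypersurface: the zero set of one nonconstant polynomial. -/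
def IsHypersurface {n : ℕ} (S : Set (EuclideanSpace ℂ (Fin n))) : Prop :=
  ∃ P : MvPolynomial (Fin n) ℂ, (∀ c : ℂ, P ≠ C c) ∧ S = zeroLocus {P}

/-- `A` stays polynomially away from `K` with exponent `N`. -/
def StaysAway {n : ℕ} (A K : Set (EuclideanSpace ℂ (Fin n))) (N : ℝ) : Prop :=
  ∃ c : ℝ, 0 < c ∧ ∀ z ∈ A, c ≤ Metric.infDist z K * (1 + ‖z‖) ^ N

/-- The real linear subspace `ℂ × ℝ^(n-1)` of `ℂ^n`. -/
def realSub (m : ℕ) : Submodule ℝ (EuclideanSpace ℂ (Fin (m + 3))) where
  carrier := {z | ∀ i, i ≠ 0 → (z i).im = 0}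
  add_mem' := by
    intro a b ha hb i hi
    simp [ha i hi, hb i hi]
  zero_mem' := by intro i _; simp
  smul_mem' := by
    intro c x hx i hi
    simp [hx i hi]

/-- The point `(a, b, c, 0, …, 0)`. -/
def pt (m : ℕ) (a b c : ℂ) : Fin (m + 3) → ℂ :=
  fun i => if i = 0 then a else if i = 1 then b else if i = 2 then c else 0

theorem one_ne_zero' (m : ℕ) : (1 : Fin (m + 3)) ≠ 0 := by
  simp

theorem two_ne_zero' (m : ℕ) : (2 : Fin (m + 3)) ≠ 0 := by
  rw [Ne, Fin.ext_iff]
  simp [Nat.mod_eq_of_lt (show 2 < m + 3 by omega)]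

theorem two_ne_one' (m : ℕ) : (2 : Fin (m + 3)) ≠ 1 := by
  rw [Ne, Fin.ext_iff]
  simp [Nat.mod_eq_of_lt (show 2 < m + 3 by omega), Nat.mod_eq_of_lt (show 1 < m + 3 by omega)]

/-- substituting polynomials for the three first variables and evaluating -/
theorem eval_line (m : ℕ) (P : MvPolynomial (Fin (m + 3)) ℂ) (A B D : Polynomial ℂ) (t : ℂ) :
    ((MvPolynomial.aeval (fun i : Fin (m + 3) =>
      (if i = 0 then A else if i = 1 then B else if i = 2 then D else 0 : Polynomial ℂ)) P).eval t)
      = MvPolynomial.eval (pt m (A.eval t) (B.eval t) (D.eval t)) P := by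
  rw [← Polynomial.coe_evalRingHom, MvPolynomial.aeval_def, ← MvPolynomial.coe_eval₂Hom,
    ← RingHom.comp_apply, MvPolynomial.eval]
  congr 1
  apply MvPolynomial.ringHom_ext
  · intro r; simp
  · intro i
    simp only [RingHom.comp_apply, MvPolynomial.coe_eval₂Hom, MvPolynomial.eval₂_X,
      Polynomial.coe_evalRingHom, pt]
    split_ifs <;> simp

theorem infinite_reals : (Set.range (fun x : ℝ => (x : ℂ))).Infinite :=
  Set.infinite_range_of_injective Complex.ofReal_injective

/-- a one variable polynomial without zeros takes only one value -/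
theorem const_of_no_root (A : Polynomial ℂ) (h : ∀ a, A.eval a ≠ 0) (a : ℂ) :
    A.eval a = A.eval 0 := by
  have hd : A.degree = 0 := by
    by_contra hne
    obtain ⟨x, hx⟩ := IsAlgClosed.exists_root A hne
    exact h x hx
  rw [Polynomial.eq_C_of_degree_eq_zero hd]
  simp

theorem key (m : ℕ) (P : MvPolynomial (Fin (m + 3)) ℂ)
    (hK : ∀ (a : ℂ) (b c : ℝ), MvPolynomial.eval (pt m a b c) P ≠ 0)
    (hV : ∀ e : ℂ, e ≠ 0 → MvPolynomial.eval (pt m e⁻¹ (Complex.I * e) e) P = 0) : False := by
  -- step 1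
  have h1 : ∀ (a : ℂ) (b c : ℝ),
      MvPolynomial.eval (pt m a b c) P = MvPolynomial.eval (pt m 0 b c) P := by
    intro a b c
    have := const_of_no_root (MvPolynomial.aeval (fun i : Fin (m + 3) =>
      (if i = 0 then Polynomial.X else if i = 1 then Polynomial.C (b : ℂ) else
        if i = 2 then Polynomial.C (c : ℂ) else 0 : Polynomial ℂ)) P) (by
          intro a'
          rw [eval_line]
          simpa using hK a' b c) a
    rw [eval_line, eval_line] at this
    simpa using this
  -- step 2
  have h2 : ∀ (a b : ℂ) (c : ℝ),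
      MvPolynomial.eval (pt m a b c) P = MvPolynomial.eval (pt m 0 b c) P := by
    intro a b c
    have key2 := Polynomial.eq_of_infinite_eval_eq
      (MvPolynomial.aeval (fun i : Fin (m + 3) =>
      (if i = 0 then Polynomial.C a else if i = 1 then Polynomial.X else
        if i = 2 then Polynomial.C (c : ℂ) else 0 : Polynomial ℂ)) P)
      (MvPolynomial.aeval (fun i : Fin (m + 3) =>
      (if i = 0 then Polynomial.C 0 else if i = 1 then Polynomial.X else
        if i = 2 then Polynomial.C (c : ℂ) else 0 : Polynomial ℂ)) P)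
      (infinite_reals.mono (by
        rintro _ ⟨x, rfl⟩
        simp only [Set.mem_ofPred_eq]
        rw [eval_line, eval_line]
        simpa using h1 a x c))
    have := congrArg (Polynomial.eval b) key2
    rw [eval_line, eval_line] at this
    simpa using this
  -- step 3
  have h3 : ∀ (a b c : ℂ),
      MvPolynomial.eval (pt m a b c) P = MvPolynomial.eval (pt m 0 b c) P := by
    intro a b c
    have key3 := Polynomial.eq_of_infinite_eval_eq
      (MvPolynomial.aeval (fun i : Fin (m + 3) =>
      (if i = 0 then Polynomial.C a else if i = 1 then Polynomial.C b else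
        if i = 2 then Polynomial.X else 0 : Polynomial ℂ)) P)
      (MvPolynomial.aeval (fun i : Fin (m + 3) =>
      (if i = 0 then Polynomial.C 0 else if i = 1 then Polynomial.C b else
        if i = 2 then Polynomial.X else 0 : Polynomial ℂ)) P)
      (infinite_reals.mono (by
        rintro _ ⟨x, rfl⟩
        simp only [Set.mem_ofPred_eq]
        rw [eval_line, eval_line]
        simpa using h2 a b x))
    have := congrArg (Polynomial.eval c) key3
    rw [eval_line, eval_line] at this
    simpa using this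
  -- step 4
  have h4 : (MvPolynomial.aeval (fun i : Fin (m + 3) =>
      (if i = 0 then Polynomial.C 0 else if i = 1 then Polynomial.C Complex.I * Polynomial.X else
        if i = 2 then Polynomial.X else 0 : Polynomial ℂ)) P) = 0 := by
    apply Polynomial.eq_of_infinite_eval_eq
    apply (Set.infinite_univ.sdiff (Set.finite_singleton (0 : ℂ))).mono
    rintro e ⟨-, he⟩
    simp only [Set.mem_ofPred_eq]
    rw [eval_line]
    have := h3 e⁻¹ (Complex.I * e) e
    rw [hV e he] at this
    simpa using this.symm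
  have h5 := congrArg (Polynomial.eval 0) h4
  rw [eval_line] at h5
  apply hK 0 0 0
  simpa using h5

/-- **Disproof of Q1 and Q2 of MP_c229cb_an**, in every dimension `n ≥ 3` and for a real linear
subspace `K`: there are a real linear subspace `K` of `ℂ^n` (in particular a nonempty closed cone)
and a nonempty algebraic variety `V ≠ ℂ^n` which stays polynomially away from `K` with exponent `1`,
such that every algebraic hypersurface `S` containing `V` meets `K`. -/
theorem result : ∀ n : ℕ, 3 ≤ n →
    ∃ (K : Submodule ℝ (EuclideanSpace ℂ (Fin n))) (V : Set (EuclideanSpace ℂ (Fin n))),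
      IsClosedCone (K : Set (EuclideanSpace ℂ (Fin n))) ∧
      (K : Set (EuclideanSpace ℂ (Fin n))).Nonempty ∧
      IsVariety V ∧ V.Nonempty ∧ V ≠ Set.univ ∧
      StaysAway V (K : Set (EuclideanSpace ℂ (Fin n))) 1 ∧
      ∀ S : Set (EuclideanSpace ℂ (Fin n)), IsHypersurface S → V ⊆ S →
        (S ∩ (K : Set (EuclideanSpace ℂ (Fin n)))).Nonempty := by
  intro n hn
  obtain ⟨m, rfl⟩ : ∃ m, n = m + 3 := ⟨n - 3, by omega⟩
  have h10 := one_ne_zero' m
  have h20 := two_ne_zero' m
  have h21 := two_ne_one' m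
  have hVdef : ∀ z : EuclideanSpace ℂ (Fin (m + 3)),
      z ∈ zeroLocus ({X 0 * X 2 - 1, X 1 - C Complex.I * X 2} :
        Set (MvPolynomial (Fin (m + 3)) ℂ)) ↔ z 0 * z 2 = 1 ∧ z 1 = Complex.I * z 2 := by
    intro z
    simp [zeroLocus, sub_eq_zero]
  refine ⟨realSub m, zeroLocus {X 0 * X 2 - 1, X 1 - C Complex.I * X 2}, ?_, ?_, ?_, ?_, ?_, ?_, ?_⟩
  · refine ⟨?_, ?_⟩
    · have : ((realSub m : Submodule ℝ (EuclideanSpace ℂ (Fin (m + 3)))) :
          Set (EuclideanSpace ℂ (Fin (m + 3)))) = ⋂ i : Fin (m + 3), {z | i ≠ 0 → (z i).im = 0} := by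
        ext z
        rw [Set.mem_iInter]
        exact Iff.rfl
      rw [this]
      refine isClosed_iInter fun i => ?_
      by_cases hi : i = 0
      · simp [hi]
      · simp only [ne_eq, hi, not_false_eq_true, forall_true_left]
        exact isClosed_eq (Complex.continuous_im.comp (by fun_prop)) continuous_const
    · intro t _ z hz
      have := (realSub m).smul_mem t hz
      have h : (t : ℂ) • z = t • z := by
        ext i; simp
      rw [h]; exact this
  · exact ⟨0, (realSub m).zero_mem⟩
  · exact ⟨_, Set.toFinite _, rfl⟩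
  · refine ⟨WithLp.toLp 2 (pt m 1 Complex.I 1), ?_⟩
    rw [hVdef]
    simp [pt, h10, h20, h21]
  · intro h
    have h0 : (0 : EuclideanSpace ℂ (Fin (m + 3))) ∈ zeroLocus
      ({X 0 * X 2 - 1, X 1 - C Complex.I * X 2} : Set (MvPolynomial (Fin (m + 3)) ℂ)) := by
      rw [h]; trivial
    rw [hVdef] at h0
    simp at h0
  · refine ⟨1, one_pos, ?_⟩
    intro z hz
    rw [hVdef] at hz
    obtain ⟨hz1, hz2⟩ := hz
    have hd : ‖z 2‖ ≤ Metric.infDist z (realSub m : Set (EuclideanSpace ℂ (Fin (m + 3)))) := by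
      rw [Metric.le_infDist ⟨0, (realSub m).zero_mem⟩]
      intro w hw
      have hw1 : (w 1).im = 0 := hw 1 h10
      have hw2 : (w 2).im = 0 := hw 2 h20
      rw [dist_eq_norm, EuclideanSpace.norm_eq]
      apply Real.le_sqrt_of_sq_le
      have hsum : ‖(z - w) 1‖ ^ 2 + ‖(z - w) 2‖ ^ 2 ≤ ∑ i, ‖(z - w) i‖ ^ 2 := by
        rw [← Finset.sum_pair (f := fun i => ‖(z - w) i‖ ^ 2) h21.symm]
        apply Finset.sum_le_sum_of_subset_of_nonneg
        · intro i _; exact Finset.mem_univ i
        · intro i _ _; positivity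
      refine le_trans ?_ hsum
      have e1 : ((z - w) 1).im ^ 2 ≤ ‖(z - w) 1‖ ^ 2 := by
        rw [← sq_abs]
        exact pow_le_pow_left₀ (abs_nonneg _) (Complex.abs_im_le_norm _) 2
      have e2 : ((z - w) 2).im ^ 2 ≤ ‖(z - w) 2‖ ^ 2 := by
        rw [← sq_abs]
        exact pow_le_pow_left₀ (abs_nonneg _) (Complex.abs_im_le_norm _) 2
      have e3 : ((z - w) 1).im = (z 2).re := by
        simp [hw1, hz2]
      have e4 : ((z - w) 2).im = (z 2).im := by
        simp [hw2]
      rw [e3] at e1
      rw [e4] at e2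
      have e5 : ‖z 2‖ ^ 2 = (z 2).re ^ 2 + (z 2).im ^ 2 := by
        rw [← Complex.normSq_eq_norm_sq, Complex.normSq_apply]; ring
      rw [e5]
      linarith
    rw [Real.rpow_one]
    have h3 : ‖z 0‖ ≤ 1 + ‖z‖ := by
      have := EuclideanSpace.norm_eq z
      have h4 : ‖z 0‖ ≤ ‖z‖ := by
        rw [EuclideanSpace.norm_eq]
        apply Real.le_sqrt_of_sq_le
        exact Finset.single_le_sum (f := fun i => ‖z i‖ ^ 2) (fun i _ => by positivity)
          (Finset.mem_univ 0)
      linarith
    calc (1 : ℝ) = ‖z 2‖ * ‖z 0‖ := by rw [← norm_mul, mul_comm, hz1, norm_one]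
      _ ≤ Metric.infDist z (realSub m : Set (EuclideanSpace ℂ (Fin (m + 3)))) * (1 + ‖z‖) := by
          apply mul_le_mul hd h3 (norm_nonneg _) Metric.infDist_nonneg
  · rintro S ⟨P, -, rfl⟩ hVS
    by_contra hcon
    rw [Set.not_nonempty_iff_eq_empty] at hcon
    apply key m P
    · intro a b c h0
      have hmem : (WithLp.toLp 2 (pt m a b c) : EuclideanSpace ℂ (Fin (m + 3))) ∈
          zeroLocus {P} ∩ (realSub m : Set (EuclideanSpace ℂ (Fin (m + 3)))) := by
        refine ⟨?_, ?_⟩
        · intro Q hQ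
          rw [Set.mem_singleton_iff] at hQ
          subst hQ
          exact h0
        · intro i hi
          show (pt m a b c i).im = 0
          simp only [pt, hi, if_false]
          split_ifs <;> simp
      rw [hcon] at hmem
      exact hmem
    · intro e he
      have hmem : (WithLp.toLp 2 (pt m e⁻¹ (Complex.I * e) e) : EuclideanSpace ℂ (Fin (m + 3))) ∈
          zeroLocus ({X 0 * X 2 - 1, X 1 - C Complex.I * X 2} :
            Set (MvPolynomial (Fin (m + 3)) ℂ)) := by
        rw [hVdef]
        simp [pt, h10, h20, h21, he]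
      exact hVS hmem P (Set.mem_singleton P)

end Pool.Agent.Results.MP_c229cb_an.RealSubspace
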