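import Mathlib

/-!
MP_c229cb_an, Q2: it fails for every exponent even when a separating hypersurface exists.

`K` is a finite union of complex linear hyperplanes through a common codimension two subspace,
`V` is an affine subspace of codimension two (a single point when `n = 2`).
-/

namespace Pool.Agent.Results.MP_c229cb_an.SameExponent

open MvPolynomial

/-- A closed cone in `ℂ^n`: a closed set stable under multiplication by every real `t > 0`. -/
def IsClosedCone {n : ℕ} (K : Set (EuclideanSpace ℂ (Fin n))) : Prop :=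
  IsClosed K ∧ ∀ t : ℝ, 0 < t → ∀ z ∈ K, (t : ℂ) • z ∈ K

/-- The common zero set in `ℂ^n` of a set of polynomials. -/
def zeroLocus {n : ℕ} (F : Set (MvPolynomial (Fin n) ℂ)) : Set (EuclideanSpace ℂ (Fin n)) :=
  {z | ∀ P ∈ F, MvPolynomial.eval (fun i => z i) P = 0}

/-- An algebraic variety: the common zero set of finitely many polynomials. -/
def IsVariety {n : ℕ} (V : Set (EuclideanSpace ℂ (Fin n))) : Prop :=
  ∃ F : Set (MvPolynomial (Fin n) ℂ), F.Finite ∧ V = zeroLocus F

/-- An algebraic hypersurface: the zero set of one nonconstant polynomial. -/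
def IsHypersurface {n : ℕ} (S : Set (EuclideanSpace ℂ (Fin n))) : Prop :=
  ∃ P : MvPolynomial (Fin n) ℂ, (∀ c : ℂ, P ≠ C c) ∧ S = zeroLocus {P}

/-- `A` stays polynomially away from `K` with exponent `N`. -/
def StaysAway {n : ℕ} (A K : Set (EuclideanSpace ℂ (Fin n))) (N : ℝ) : Prop :=
  ∃ c : ℝ, 0 < c ∧ ∀ z ∈ A, c ≤ Metric.infDist z K * (1 + ‖z‖) ^ N

/-- the union of the hyperplanes `z₁ = j z₀`, `j < m` -/
def fan (k m : ℕ) : Set (EuclideanSpace ℂ (Fin (k + 2))) :=
  {z | ∃ j : ℕ, j < m ∧ z 1 = (j : ℂ) * z 0}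

/-- replace the two first coordinates -/
def pt (k : ℕ) (x y : ℂ) (s : Fin (k + 2) → ℂ) : Fin (k + 2) → ℂ :=
  fun i => if i = 0 then x else if i = 1 then y else s i

theorem one_ne_zero' (k : ℕ) : (1 : Fin (k + 2)) ≠ 0 := by
  simp

/-- a one variable polynomial without zeros takes only one value -/
theorem const_of_no_root (A : Polynomial ℂ) (h : ∀ a, A.eval a ≠ 0) (a b : ℂ) :
    A.eval a = A.eval b := by
  have hd : A.degree = 0 := by
    by_contra hne
    obtain ⟨x, hx⟩ := IsAlgClosed.exists_root A hne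
    exact h x hx
  rw [Polynomial.eq_C_of_degree_eq_zero hd]
  simp

/-- the restriction of a polynomial to a two dimensional slice, as a polynomial in `y` over `ℂ[x]` -/
noncomputable def slice (k : ℕ) (s : Fin (k + 2) → ℂ) (P : MvPolynomial (Fin (k + 2)) ℂ) :
    Polynomial (Polynomial ℂ) :=
  MvPolynomial.aeval (fun i : Fin (k + 2) =>
    (if i = 0 then Polynomial.C Polynomial.X else if i = 1 then Polynomial.X else
      Polynomial.C (Polynomial.C (s i)) : Polynomial (Polynomial ℂ))) P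

theorem slice_eval (k : ℕ) (s : Fin (k + 2) → ℂ) (P : MvPolynomial (Fin (k + 2)) ℂ) (x y : ℂ) :
    ((slice k s P).map (Polynomial.evalRingHom x)).eval y
      = MvPolynomial.eval (pt k x y s) P := by
  rw [slice, ← Polynomial.coe_evalRingHom, ← Polynomial.coe_mapRingHom, MvPolynomial.aeval_def,
    ← MvPolynomial.coe_eval₂Hom, ← RingHom.comp_apply, ← RingHom.comp_apply, MvPolynomial.eval]
  congr 1
  apply MvPolynomial.ringHom_ext
  · intro r; simp [Polynomial.algebraMap_apply]
  · intro i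
    simp only [RingHom.comp_apply, MvPolynomial.coe_eval₂Hom, MvPolynomial.eval₂_X,
      Polynomial.coe_evalRingHom, Polynomial.coe_mapRingHom, pt]
    split_ifs <;> simp

/-- evaluation along an affine line -/
theorem eval_affine (k : ℕ) (P : MvPolynomial (Fin (k + 2)) ℂ) (p q : Fin (k + 2) → ℂ) (t : ℂ) :
    (MvPolynomial.aeval (fun i : Fin (k + 2) =>
      (Polynomial.C (p i) + Polynomial.C (q i) * Polynomial.X : Polynomial ℂ)) P).eval t
      = MvPolynomial.eval (fun i => p i + q i * t) P := by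
  rw [← Polynomial.coe_evalRingHom, MvPolynomial.aeval_def, ← MvPolynomial.coe_eval₂Hom,
    ← RingHom.comp_apply, MvPolynomial.eval]
  congr 1
  apply MvPolynomial.ringHom_ext
  · intro r; simp
  · intro i; simp

/-- a polynomial without zeros on an affine line is constant there -/
theorem const_on_line (k : ℕ) (P : MvPolynomial (Fin (k + 2)) ℂ) (p q : Fin (k + 2) → ℂ)
    (h : ∀ t : ℂ, MvPolynomial.eval (fun i => p i + q i * t) P ≠ 0) (a b : ℂ) :
    MvPolynomial.eval (fun i => p i + q i * a) P = MvPolynomial.eval (fun i => p i + q i * b) P := by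
  have := const_of_no_root (MvPolynomial.aeval (fun i : Fin (k + 2) =>
      (Polynomial.C (p i) + Polynomial.C (q i) * Polynomial.X : Polynomial ℂ)) P)
      (fun t => by rw [eval_affine]; exact h t) a b
  rwa [eval_affine, eval_affine] at this

/-- a nonconstant polynomial has a zero -/
theorem exists_zero (k : ℕ) (P : MvPolynomial (Fin (k + 2)) ℂ) (hP : ∀ c : ℂ, P ≠ C c) :
    ∃ p, MvPolynomial.eval p P = 0 := by
  by_contra hcon
  push Not at hcon
  apply hP (MvPolynomial.eval 0 P)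
  apply MvPolynomial.funext
  intro p
  rw [MvPolynomial.eval_C]
  have := const_on_line k P 0 p (fun t => hcon _) 1 0
  simpa using this

/-- lower bound at infinity for a nonzero one variable polynomial -/
theorem exists_lower (a : Polynomial ℂ) (ha : a ≠ 0) :
    ∃ a0 : ℝ, 0 < a0 ∧ ∃ R : ℝ, ∀ x : ℝ, R ≤ x → a0 ≤ ‖a.eval (x : ℂ)‖ := by
  by_cases hd : 0 < a.degree
  · have h := Polynomial.tendsto_norm_atTop a hd (z := fun x : ℝ => (x : ℂ))
      (l := Filter.atTop) (by
        simpa using Filter.tendsto_abs_atTop_atTop)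
    obtain ⟨R, hR⟩ := Filter.eventually_atTop.1 (h.eventually_ge_atTop 1)
    exact ⟨1, one_pos, R, hR⟩
  · have hd0 : a.degree ≤ 0 := not_lt.1 hd
    rw [Polynomial.eq_C_of_degree_le_zero hd0] at ha ⊢
    refine ⟨‖a.coeff 0‖, ?_, 0, ?_⟩
    · rw [norm_pos_iff]
      intro h0
      rw [h0] at ha
      simp at ha
    · intro x _; simp

/-- the geometric estimate: away from the nearest of the `m` hyperplanes all the others are at
distance comparable with the norm -/
theorem prod_lower (m : ℕ) (hm : 0 < m) (x y : ℂ) (c0 B : ℝ) (hB : 0 ≤ B) (hxB : B ≤ ‖x‖)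
    (hc0 : ∀ j < m, c0 ≤ ‖y - (j : ℂ) * x‖) :
    c0 * ((‖x‖ + ‖y‖ + B) / (4 * m + 6)) ^ (m - 1) ≤ ∏ j ∈ Finset.range m, ‖y - (j : ℂ) * x‖ := by
  obtain ⟨j0, hj0, hmin⟩ := Finset.exists_min_image (Finset.range m)
    (fun j => ‖y - (j : ℂ) * x‖) ⟨0, Finset.mem_range.2 hm⟩
  rw [← Finset.mul_prod_erase _ _ hj0]
  apply mul_le_mul (hc0 j0 (Finset.mem_range.1 hj0)) _ (by positivity) (norm_nonneg _)
  have hcard : (Finset.range m).card - 1 = ((Finset.range m).erase j0).card := by
    rw [Finset.card_erase_of_mem hj0]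
  rw [Finset.card_range] at hcard
  rw [hcard, ← Finset.prod_const]
  apply Finset.prod_le_prod
  · intro i _; positivity
  · intro i hi
    have hij : i ≠ j0 := (Finset.mem_erase.1 hi).1
    have him : i ∈ Finset.range m := (Finset.mem_erase.1 hi).2
    have h1 : ‖y - (j0 : ℂ) * x‖ ≤ ‖y - (i : ℂ) * x‖ := hmin i him
    have h2 : ‖x‖ ≤ ‖y - (j0 : ℂ) * x‖ + ‖y - (i : ℂ) * x‖ := by
      have e : ((i : ℂ) - (j0 : ℂ)) * x = (y - (j0 : ℂ) * x) - (y - (i : ℂ) * x) := by ring
      have h3 : ‖((i : ℂ) - (j0 : ℂ)) * x‖ ≤ ‖y - (j0 : ℂ) * x‖ + ‖y - (i : ℂ) * x‖ := by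
        rw [e]; exact norm_sub_le _ _
      refine le_trans ?_ h3
      rw [norm_mul]
      have h4 : (1 : ℝ) ≤ ‖(i : ℂ) - (j0 : ℂ)‖ := by
        have h5 : ((i : ℂ) - (j0 : ℂ)) = (((i : ℤ) - (j0 : ℤ) : ℤ) : ℂ) := by push_cast; ring
        rw [h5, Complex.norm_intCast]
        have h6 : (i : ℤ) - (j0 : ℤ) ≠ 0 := by
          rw [sub_ne_zero]; exact_mod_cast hij
        exact_mod_cast Int.one_le_abs h6
      nlinarith [norm_nonneg x]
    have hi' : (i : ℝ) ≤ m := by exact_mod_cast (Finset.mem_range.1 him).le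
    have h7 : ‖y‖ ≤ ‖y - (i : ℂ) * x‖ + m * ‖x‖ := by
      have e : y = (y - (i : ℂ) * x) + (i : ℂ) * x := by ring
      calc ‖y‖ = ‖(y - (i : ℂ) * x) + (i : ℂ) * x‖ := by rw [← e]
        _ ≤ ‖y - (i : ℂ) * x‖ + ‖(i : ℂ) * x‖ := norm_add_le _ _
        _ ≤ ‖y - (i : ℂ) * x‖ + m * ‖x‖ := by
            rw [norm_mul, Complex.norm_natCast]
            gcongr
    rw [div_le_iff₀ (by positivity)]
    have hxx : ‖x‖ ≤ 2 * ‖y - (i : ℂ) * x‖ := by linarith
    have hm0 : (0 : ℝ) ≤ m := by positivity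
    nlinarith [norm_nonneg (y - (i : ℂ) * x), mul_le_mul_of_nonneg_left hxx hm0]

theorem norm_pt_le (k : ℕ) (x y : ℂ) (s : Fin (k + 2) → ℂ) :
    ‖(WithLp.toLp 2 (pt k x y s) : EuclideanSpace ℂ (Fin (k + 2)))‖
      ≤ ‖x‖ + ‖y‖ + ∑ i, ‖s i‖ := by
  have h1 : (WithLp.toLp 2 (pt k x y s) : EuclideanSpace ℂ (Fin (k + 2))) =
      ∑ i, PiLp.single 2 i (pt k x y s i) := by
    ext j
    simp
  rw [h1]
  refine le_trans (norm_sum_le _ _) ?_
  have h2 : ∀ i, ‖(PiLp.single 2 i (pt k x y s i) : EuclideanSpace ℂ (Fin (k + 2)))‖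
      ≤ (if i = 0 then ‖x‖ else 0) + (if i = 1 then ‖y‖ else 0) + ‖s i‖ := by
    intro i
    rw [PiLp.norm_single]
    simp only [pt]
    by_cases hi0 : i = 0
    · subst hi0
      simp
    · by_cases hi1 : i = 1
      · subst hi1
        simp
      · simp [hi0, hi1]
  refine le_trans (Finset.sum_le_sum fun i _ => h2 i) ?_
  simp [Finset.sum_add_distrib]

theorem norm_multiset_prod (w : ℂ) (M : Multiset ℂ) :
    ‖(M.map (fun r => w - r)).prod‖ = (M.map (fun r => ‖r - w‖)).prod := by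
  induction M using Multiset.induction_on with
  | empty => simp
  | cons r M ih => simp [ih, norm_sub_rev]

theorem prod_multiset_comm (m : ℕ) (F : ℂ → ℕ → ℝ) (M : Multiset ℂ) :
    ∏ j ∈ Finset.range m, (M.map (fun r => F r j)).prod
      = (M.map (fun r => ∏ j ∈ Finset.range m, F r j)).prod := by
  induction M using Multiset.induction_on with
  | empty => simp
  | cons r M ih => simp [ih, Finset.prod_mul_distrib]

theorem fan_nonempty (k m : ℕ) (hm : 0 < m) : (fan k m).Nonempty :=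
  ⟨0, 0, hm, by simp⟩

theorem not_staysAway (k m : ℕ) (N : ℝ) (hN : 0 ≤ N) (hm : N + 2 ≤ m)
    (P : MvPolynomial (Fin (k + 2)) ℂ) (hP : ∀ c : ℂ, P ≠ C c)
    (hdis : zeroLocus {P} ∩ fan k m = ∅) : ¬ StaysAway (zeroLocus {P}) (fan k m) N := by
  rintro ⟨c0, hc0, hst⟩
  have hm2 : 2 ≤ m := by
    have : (2 : ℝ) ≤ m := by linarith
    exact_mod_cast this
  have hfan0 : ∀ s : Fin (k + 2) → ℂ, ∀ x : ℂ, ∀ j : ℕ, j < m →
      MvPolynomial.eval (pt k x (j * x) s) P ≠ 0 := by
    intro s x j hj h0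
    have hmem : (WithLp.toLp 2 (pt k x (j * x) s) : EuclideanSpace ℂ (Fin (k + 2))) ∈
        zeroLocus {P} ∩ fan k m := by
      refine ⟨?_, j, hj, ?_⟩
      · intro Q hQ
        rw [Set.mem_singleton_iff] at hQ
        subst hQ
        exact h0
      · simp [pt]
    rw [hdis] at hmem
    exact hmem
  -- the polynomial is constant on each line of the fan
  have hline : ∀ s : Fin (k + 2) → ℂ, ∀ x : ℂ, ∀ j : ℕ, j < m →
      MvPolynomial.eval (pt k x (j * x) s) P = MvPolynomial.eval (pt k 0 0 s) P := by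
    intro s x j hj
    have e : ∀ t : ℂ, (fun i => pt k 0 0 s i + (pt k 1 j 0) i * t) = pt k t (j * t) s := by
      intro t
      funext i
      simp only [pt]
      split_ifs <;> simp
    have := const_on_line k P (pt k 0 0 s) (pt k 1 j 0)
      (fun t => by rw [e]; exact hfan0 s t j hj) x 0
    rw [e, e] at this
    simpa using this
  -- choose a slice where `P` is not constant
  obtain ⟨s, x1, y1, hne⟩ : ∃ (s : Fin (k + 2) → ℂ) (x1 y1 : ℂ),
      MvPolynomial.eval (pt k x1 y1 s) P ≠ MvPolynomial.eval (pt k 0 0 s) P := by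
    by_contra hcon
    push Not at hcon
    obtain ⟨p, hp⟩ := exists_zero k P hP
    have h1 : pt k (p 0) (p 1) p = p := by
      funext i
      simp only [pt]
      split_ifs with h0 h1
      · rw [h0]
      · rw [h1]
      · rfl
    have h2 := hcon p (p 0) (p 1)
    rw [h1, hp] at h2
    have := hfan0 p 0 0 (by omega)
    simp only [Nat.cast_zero, zero_mul] at this
    exact this h2.symm
  set Q := slice k s P with hQ
  set c := MvPolynomial.eval (pt k 0 0 s) P with hc
  have hcne : c ≠ 0 := by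
    have := hfan0 s 0 0 (by omega)
    simpa using this
  have hQ0 : Q ≠ 0 := by
    intro h0
    have h1 := slice_eval k s P 0 0
    rw [← hQ, h0] at h1
    simp at h1
    exact hcne h1.symm
  have hlead : Q.leadingCoeff ≠ 0 := Polynomial.leadingCoeff_ne_zero.2 hQ0
  -- the degree in `y` is positive
  have hdeg : 0 < Q.natDegree := by
    by_contra h0
    have h0' : Q.natDegree = 0 := by omega
    have hQC : Q = Polynomial.C (Q.coeff 0) := Polynomial.eq_C_of_natDegree_eq_zero h0'
    have hval : ∀ x y : ℂ, MvPolynomial.eval (pt k x y s) P = (Q.coeff 0).eval x := by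
      intro x y
      rw [← slice_eval, ← hQ, hQC]
      simp
    have hno : ∀ x, (Q.coeff 0).eval x ≠ 0 := by
      intro x hx
      have h1 := hfan0 s x 0 (by omega)
      simp only [Nat.cast_zero, zero_mul] at h1
      rw [hval] at h1
      exact h1 hx
    apply hne
    rw [hc, hval, hval]
    exact const_of_no_root _ hno _ _
  obtain ⟨a0, ha0, R, hR⟩ := exists_lower Q.leadingCoeff hlead
  set B : ℝ := 1 + ∑ i, ‖s i‖ with hB
  have hB1 : 1 ≤ B := by
    have : 0 ≤ ∑ i, ‖s i‖ := Finset.sum_nonneg fun i _ => norm_nonneg _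
    linarith
  set κ : ℝ := 1 / (4 * m + 6) with hκ
  have hκ0 : 0 < κ := by positivity
  set c1 : ℝ := c0 * κ ^ (m - 1) with hc1
  have hc1pos : 0 < c1 := by positivity
  -- a very large real point
  obtain ⟨X, hXR, hXB, hX1, hX2⟩ : ∃ X : ℝ, R ≤ X ∧ B ≤ X ∧ 1 ≤ c1 * X ∧
      ‖c‖ ^ m < a0 ^ m * (c1 * X) := by
    refine ⟨max (max R B) (max (1 / c1) ((‖c‖ ^ m + 1) / (a0 ^ m * c1))), ?_, ?_, ?_, ?_⟩
    · exact le_trans (le_max_left _ _) (le_max_left _ _)
    · exact le_trans (le_max_right _ _) (le_max_left _ _)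
    · have h1 : 1 / c1 ≤ max (max R B) (max (1 / c1) ((‖c‖ ^ m + 1) / (a0 ^ m * c1))) :=
        le_trans (le_max_left _ _) (le_max_right _ _)
      rw [div_le_iff₀ hc1pos] at h1
      linarith
    · have h1 : (‖c‖ ^ m + 1) / (a0 ^ m * c1) ≤
          max (max R B) (max (1 / c1) ((‖c‖ ^ m + 1) / (a0 ^ m * c1))) :=
        le_trans (le_max_right _ _) (le_max_right _ _)
      rw [div_le_iff₀ (by positivity)] at h1
      nlinarith
  have hXpos : 0 < X := by linarith
  have hXnorm : ‖(X : ℂ)‖ = X := by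
    rw [Complex.norm_real, Real.norm_eq_abs, abs_of_pos hXpos]
  set q : Polynomial ℂ := Q.map (Polynomial.evalRingHom (X : ℂ)) with hq
  have hlc : (Polynomial.evalRingHom (X : ℂ)) Q.leadingCoeff ≠ 0 := by
    rw [Polynomial.coe_evalRingHom]
    intro h0
    have := hR X hXR
    rw [h0, norm_zero] at this
    linarith
  have hqdeg : q.natDegree = Q.natDegree := Polynomial.natDegree_map_of_leadingCoeff_ne_zero _ hlc
  have hqlc : q.leadingCoeff = Q.leadingCoeff.eval (X : ℂ) := by
    rw [hq, Polynomial.leadingCoeff_map_of_leadingCoeff_ne_zero _ hlc]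
    rfl
  have hsplit : q.Splits := IsAlgClosed.splits q
  have hqprod : q = Polynomial.C q.leadingCoeff * (q.roots.map (fun r => Polynomial.X - Polynomial.C r)).prod :=
    hsplit.eq_prod_roots
  have hcard : q.roots.card = q.natDegree := hsplit.natDegree_eq_card_roots.symm
  have hqne : q ≠ 0 := by
    intro h0
    rw [h0] at hqdeg
    simp at hqdeg
    omega
  -- product over the lines
  have hprod1 : ∏ j ∈ Finset.range m, q.eval ((j : ℂ) * (X : ℂ)) = c ^ m := by
    rw [Finset.prod_congr rfl (g := fun _ => c), Finset.prod_const, Finset.card_range]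
    intro j hj
    rw [hq, hQ, slice_eval]
    exact hline s X j (Finset.mem_range.1 hj)
  have hprod2 : ∀ w : ℂ, ‖q.eval w‖ = ‖q.leadingCoeff‖ * (q.roots.map (fun r => ‖r - w‖)).prod := by
    intro w
    conv_lhs => rw [hqprod]
    rw [Polynomial.eval_mul, Polynomial.eval_C, norm_mul, Polynomial.eval_multiset_prod,
      Multiset.map_map]
    congr 1
    rw [← norm_multiset_prod]
    congr 2
    apply Multiset.map_congr rfl
    intro r _
    simp
  have hprod3 : ‖c‖ ^ m = ‖q.leadingCoeff‖ ^ m *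
      (q.roots.map (fun r => ∏ j ∈ Finset.range m, ‖r - (j : ℂ) * (X : ℂ)‖)).prod := by
    rw [← norm_pow, ← hprod1, norm_prod, Finset.prod_congr rfl (fun j _ => hprod2 _),
      Finset.prod_mul_distrib, Finset.prod_const, Finset.card_range]
    congr 1
    exact prod_multiset_comm _ _ _
  -- each factor is large
  have hfac : ∀ r ∈ q.roots, c1 * X ≤ ∏ j ∈ Finset.range m, ‖r - (j : ℂ) * (X : ℂ)‖ := by
    intro r hr
    have hr0 : q.eval r = 0 := (Polynomial.mem_roots'.1 hr).2
    have hr1 : MvPolynomial.eval (pt k X r s) P = 0 := by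
      rw [← slice_eval]; exact hr0
    set z : EuclideanSpace ℂ (Fin (k + 2)) := WithLp.toLp 2 (pt k X r s) with hz
    have hzS : z ∈ zeroLocus {P} := by
      intro T hT
      rw [Set.mem_singleton_iff] at hT
      subst hT
      exact hr1
    have hz1 := hst z hzS
    have hnz : 0 < 1 + ‖z‖ := by positivity
    have hdist : ∀ j < m, Metric.infDist z (fan k m) ≤ ‖r - (j : ℂ) * (X : ℂ)‖ := by
      intro j hj
      have hw : (WithLp.toLp 2 (pt k X (j * X) s) : EuclideanSpace ℂ (Fin (k + 2))) ∈ fan k m := by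
        refine ⟨j, hj, ?_⟩
        simp [pt]
      refine le_trans (Metric.infDist_le_dist_of_mem hw) ?_
      rw [dist_eq_norm, hz]
      have e : (WithLp.toLp 2 (pt k X r s) : EuclideanSpace ℂ (Fin (k + 2))) -
          WithLp.toLp 2 (pt k X (j * X) s) = PiLp.single 2 1 (r - (j : ℂ) * (X : ℂ)) := by
        ext i
        rw [PiLp.sub_apply, PiLp.single_apply]
        show pt k X r s i - pt k X (j * X) s i = _
        by_cases h0 : i = 0
        · subst h0
          simp [pt]
        · by_cases h1 : i = 1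
          · subst h1
            simp [pt]
          · simp [pt, h0, h1]
      rw [e, PiLp.norm_single]
    have hlow : ∀ j < m, c0 * (1 + ‖z‖) ^ (-N) ≤ ‖r - (j : ℂ) * (X : ℂ)‖ := by
      intro j hj
      refine le_trans ?_ (hdist j hj)
      rw [Real.rpow_neg hnz.le, ← div_eq_mul_inv, div_le_iff₀ (Real.rpow_pos_of_pos hnz _)]
      exact hz1
    have hpl := prod_lower m (by omega) (X : ℂ) r (c0 * (1 + ‖z‖) ^ (-N)) B (by linarith)
      (by rw [hXnorm]; exact hXB) hlow
    refine le_trans ?_ hpl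
    have hzn : 1 + ‖z‖ ≤ ‖(X : ℂ)‖ + ‖r‖ + B := by
      have := norm_pt_le k X r s
      rw [← hz] at this
      rw [hB]; linarith
    have hge : (1 + ‖z‖) * κ ≤ (‖(X : ℂ)‖ + ‖r‖ + B) / (4 * m + 6) := by
      rw [hκ, div_eq_mul_inv (‖(X : ℂ)‖ + ‖r‖ + B), one_div]
      gcongr
    have hpow : ((1 + ‖z‖) * κ) ^ (m - 1) ≤ ((‖(X : ℂ)‖ + ‖r‖ + B) / (4 * m + 6)) ^ (m - 1) := by
      gcongr
    refine le_trans ?_ (mul_le_mul_of_nonneg_left hpow (by positivity))
    have hXz : X ≤ 1 + ‖z‖ := by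
      have h1 : ‖z 0‖ ≤ ‖z‖ := by
        rw [EuclideanSpace.norm_eq]
        apply Real.le_sqrt_of_sq_le
        exact Finset.single_le_sum (f := fun i => ‖z i‖ ^ 2) (fun i _ => by positivity)
          (Finset.mem_univ 0)
      have h2 : z 0 = (X : ℂ) := by simp [hz, pt]
      rw [h2, hXnorm] at h1
      linarith
    have hexp : X ≤ (1 + ‖z‖) ^ (-N) * (1 + ‖z‖) ^ (m - 1) := by
      rw [← Real.rpow_natCast, ← Real.rpow_add hnz]
      have h3 : (1 : ℝ) ≤ -N + ((m - 1 : ℕ) : ℝ) := by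
        rw [Nat.cast_sub (by omega)]
        push_cast
        linarith
      calc X ≤ 1 + ‖z‖ := hXz
        _ = (1 + ‖z‖) ^ (1 : ℝ) := (Real.rpow_one _).symm
        _ ≤ (1 + ‖z‖) ^ (-N + ((m - 1 : ℕ) : ℝ)) :=
            Real.rpow_le_rpow_of_exponent_le (by linarith [norm_nonneg z]) h3
    calc c1 * X ≤ c1 * ((1 + ‖z‖) ^ (-N) * (1 + ‖z‖) ^ (m - 1)) := by gcongr
      _ = c0 * (1 + ‖z‖) ^ (-N) * ((1 + ‖z‖) * κ) ^ (m - 1) := by
          rw [hc1, mul_pow]; ring
  -- final contradiction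
  have hfinal : a0 ^ m * (c1 * X) ≤ ‖c‖ ^ m := by
    rw [hprod3]
    have h1 : a0 ≤ ‖q.leadingCoeff‖ := by
      rw [hqlc]; exact hR X hXR
    have h2 : (c1 * X) ≤
        (q.roots.map (fun r => ∏ j ∈ Finset.range m, ‖r - (j : ℂ) * (X : ℂ)‖)).prod := by
      have h3 : (c1 * X) ^ q.roots.card ≤
          (q.roots.map (fun r => ∏ j ∈ Finset.range m, ‖r - (j : ℂ) * (X : ℂ)‖)).prod := by
        have h4 : ∀ M : Multiset ℂ, (∀ r ∈ M, c1 * X ≤ ∏ j ∈ Finset.range m,
            ‖r - (j : ℂ) * (X : ℂ)‖) → (c1 * X) ^ M.card ≤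
            (M.map (fun r => ∏ j ∈ Finset.range m, ‖r - (j : ℂ) * (X : ℂ)‖)).prod := by
          intro M
          induction M using Multiset.induction_on with
          | empty => intro _; simp
          | cons r M ih =>
            intro h
            rw [Multiset.card_cons, Multiset.map_cons, Multiset.prod_cons, pow_succ, mul_comm]
            apply mul_le_mul
            · exact h r (Multiset.mem_cons_self r M)
            · exact ih (fun r' hr' => h r' (Multiset.mem_cons_of_mem hr'))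
            · positivity
            · exact Finset.prod_nonneg fun i _ => norm_nonneg _
        exact h4 _ hfac
      refine le_trans ?_ h3
      exact le_self_pow₀ hX1 (by omega)
    calc a0 ^ m * (c1 * X) ≤ ‖q.leadingCoeff‖ ^ m * (c1 * X) := by gcongr
      _ ≤ _ := by gcongr
  linarith

/-- **Q2 of MP_c229cb_an fails for every exponent, even when a separating hypersurface exists.**
For every `n ≥ 2` and every `N ≥ 0` there are a nonempty closed cone `K ⊆ ℂ^n` and a nonempty
variety `V ≠ ℂ^n` staying polynomially away from `K` with every exponent `M ≥ 0`, such that some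
algebraic hypersurface separates `V` from `K`, but no algebraic hypersurface disjoint from `K`
stays polynomially away from `K` with any exponent `M ≤ N`, `M ≥ 0`. -/
theorem result : ∀ n : ℕ, 2 ≤ n → ∀ N : ℝ, 0 ≤ N →
    ∃ K V : Set (EuclideanSpace ℂ (Fin n)),
      IsClosedCone K ∧ K.Nonempty ∧ IsVariety V ∧ V.Nonempty ∧ V ≠ Set.univ ∧
      (∀ M : ℝ, 0 ≤ M → StaysAway V K M) ∧
      (∃ S, IsHypersurface S ∧ V ⊆ S ∧ S ∩ K = ∅) ∧
      ∀ S, IsHypersurface S → S ∩ K = ∅ → ∀ M : ℝ, 0 ≤ M → M ≤ N → ¬ StaysAway S K M := by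
  intro n hn N hN
  obtain ⟨k, rfl⟩ : ∃ k, n = k + 2 := ⟨n - 2, by omega⟩
  obtain ⟨m, hm⟩ : ∃ m : ℕ, N + 2 ≤ m := exists_nat_ge (N + 2)
  have hm2 : 2 ≤ m := by
    have : (2 : ℝ) ≤ m := by linarith
    exact_mod_cast this
  have h10 := one_ne_zero' k
  have hVdef : ∀ z : EuclideanSpace ℂ (Fin (k + 2)),
      z ∈ zeroLocus ({X 0, X 1 - 1} : Set (MvPolynomial (Fin (k + 2)) ℂ)) ↔
        z 0 = 0 ∧ z 1 = 1 := by
    intro z
    simp [zeroLocus, sub_eq_zero]
  refine ⟨fan k m, zeroLocus {X 0, X 1 - 1}, ⟨?_, ?_⟩, ?_, ?_, ?_, ?_, ?_, ?_, ?_⟩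
  · have : fan k m = ⋃ j ∈ Finset.range m,
        {z : EuclideanSpace ℂ (Fin (k + 2)) | z 1 = (j : ℂ) * z 0} := by
      ext z
      simp [fan]
    rw [this]
    apply isClosed_biUnion_finset
    intro j _
    exact isClosed_eq (by fun_prop) (by fun_prop)
  · rintro t - z ⟨j, hj, hz⟩
    refine ⟨j, hj, ?_⟩
    simp only [PiLp.smul_apply, smul_eq_mul, hz]
    ring
  · exact fan_nonempty k m (by omega)
  · exact ⟨_, Set.toFinite _, rfl⟩
  · refine ⟨WithLp.toLp 2 (pt k 0 1 0), ?_⟩
    rw [hVdef]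
    simp [pt]
  · intro h
    have h0 : (0 : EuclideanSpace ℂ (Fin (k + 2))) ∈ zeroLocus
      ({X 0, X 1 - 1} : Set (MvPolynomial (Fin (k + 2)) ℂ)) := by
      rw [h]; trivial
    rw [hVdef] at h0
    simp at h0
  · intro M hM
    refine ⟨1 / (m + 1), by positivity, ?_⟩
    intro z hz
    rw [hVdef] at hz
    obtain ⟨hz0, hz1⟩ := hz
    have hd : 1 / ((m : ℝ) + 1) ≤ Metric.infDist z (fan k m) := by
      rw [Metric.le_infDist (fan_nonempty k m (by omega))]
      rintro w ⟨j, hj, hw⟩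
      have hcoord : ∀ i, ‖z i - w i‖ ≤ dist z w := by
        intro i
        rw [dist_eq_norm, EuclideanSpace.norm_eq]
        apply Real.le_sqrt_of_sq_le
        exact Finset.single_le_sum (f := fun i => ‖(z - w) i‖ ^ 2) (fun i _ => by positivity)
          (Finset.mem_univ i)
      have e0 := hcoord 0
      have e1 := hcoord 1
      rw [hz0, zero_sub, norm_neg] at e0
      rw [hz1, hw] at e1
      have hj' : (j : ℝ) ≤ m := by exact_mod_cast hj.le
      have h1 : (1 : ℝ) ≤ ‖1 - (j : ℂ) * w 0‖ + m * ‖w 0‖ := by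
        calc (1 : ℝ) = ‖(1 - (j : ℂ) * w 0) + (j : ℂ) * w 0‖ := by simp
          _ ≤ ‖1 - (j : ℂ) * w 0‖ + ‖(j : ℂ) * w 0‖ := norm_add_le _ _
          _ ≤ ‖1 - (j : ℂ) * w 0‖ + m * ‖w 0‖ := by
              rw [norm_mul, Complex.norm_natCast]
              gcongr
      rw [div_le_iff₀ (by positivity)]
      have hm0 : (0 : ℝ) ≤ m := by positivity
      nlinarith [mul_le_mul_of_nonneg_left e0 hm0]
    have h2 : (1 : ℝ) ≤ (1 + ‖z‖) ^ M := Real.one_le_rpow (by linarith [norm_nonneg z]) hM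
    calc 1 / ((m : ℝ) + 1) ≤ Metric.infDist z (fan k m) * 1 := by rw [mul_one]; exact hd
      _ ≤ _ := by
        apply mul_le_mul_of_nonneg_left h2 Metric.infDist_nonneg
  · refine ⟨zeroLocus {∏ j ∈ Finset.range m, (X 1 - C (j : ℂ) * X 0) - 1}, ⟨_, ?_, rfl⟩, ?_, ?_⟩
    · intro c hc
      have h1 := congrArg (MvPolynomial.eval (pt k 0 0 0)) hc
      have h2 := congrArg (MvPolynomial.eval (pt k 0 1 0)) hc
      rw [MvPolynomial.eval_C] at h1 h2
      rw [← h2, map_sub, map_sub, map_prod, map_prod,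
        Finset.prod_eq_zero (Finset.mem_range.2 (show 0 < m by omega)) (by simp [pt]),
        Finset.prod_eq_one (fun j _ => by simp [pt])] at h1
      simp at h1
    · intro z hz
      rw [hVdef] at hz
      intro Q hQ
      rw [Set.mem_singleton_iff] at hQ
      subst hQ
      simp [hz.1, hz.2]
    · rw [Set.eq_empty_iff_forall_notMem]
      rintro z ⟨hz, j, hj, hzj⟩
      have := hz _ (Set.mem_singleton _)
      rw [map_sub, map_prod, Finset.prod_eq_zero (Finset.mem_range.2 hj)] at this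
      · simp at this
      · simp [hzj]
  · rintro S ⟨P, hP, rfl⟩ hdis M hM hMN
    exact not_staysAway k m M hM (by linarith) P hP hdis

end Pool.Agent.Results.MP_c229cb_an.SameExponent
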